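import Pool.Agent.H39.Bei.Defs
import Pool.Agent.H89.L.W5h93_EU_Main

/-!
# The zero set of an additive invariant is closed under closed-open decompositions
-/

set_option autoImplicit false

open CategoryTheory AlgebraicGeometry Pool.Agent.Y116.UV Pool.Agent.Z125.UN Pool.Agent.W5h93.EU

namespace Pool.Agent.H39.Bei

section

variable {k : Type} [Field k] {M : Type*} [AddCommGroup M] {δ : Sch k → ℤ → M} (h : IsAdditive δ)

include h

lemma alg_iso {A B : Type} [CommRing A] [CommRing B] [Algebra k A] [Algebra k B]
    [Algebra.FiniteType k A] (e : A ≃ₐ[k] B) : δ (aff k A) = δ (aff k B) :=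
  h.iso (ft_aff True) ⟨(affIso e).symm⟩

/-- the invariant of an affine space over `A` -/
lemma additive_poly (A : Type) [CommRing A] [Algebra k A] [Algebra.FiniteType k A] (n : ℕ) (c : ℤ) :
    δ (aff k (MvPolynomial (Fin n) A)) c = δ (aff k A) (c - n) := by
  have h1 : IsOpenImmersion (𝟙 (aff k A) : aff k A ⟶ aff k A).left :=
    inferInstanceAs (IsOpenImmersion (𝟙 (aff k A).left))
  have h2 : Set.range (𝟙 (aff k A) : aff k A ⟶ aff k A).left =
      {x : PrimeSpectrum A | ∃ l, f1 A n l ∉ x.asIdeal} := by
    have h1 : Set.range (𝟙 (aff k A) : aff k A ⟶ aff k A).left = Set.univ := Set.range_id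
    have h2 : {x : PrimeSpectrum A | ∃ l, f1 A n l ∉ x.asIdeal} = Set.univ := by
      rw [Set.eq_univ_iff_forall]
      intro x
      exact ⟨0, fun hx => x.isPrime.ne_top ((Ideal.eq_top_iff_one _).mpr hx)⟩
    exact h1.trans h2.symm
  have h3 := h.bundle A (n + 1) (f1 A n) (aff k A) ⟨𝟙 _, h1, h2⟩ c
  have : Algebra.FiniteType k (Jou (f1 A n)) :=
    Algebra.FiniteType.trans (S := A) inferInstance inferInstance
  rw [← alg_iso h ((jouOne A n).restrictScalars k), h3]
  congr 1
  push_cast
  ring

open Polynomial in
/-- the invariant of `X × 𝔾_m` -/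
lemma additive_torus (A : Type) [CommRing A] [Algebra k A] [Algebra.FiniteType k A] (c : ℤ) :
    δ (aff k (LaurentPolynomial A)) c = δ (aff k A) (c - 1) - δ (aff k A) c := by
  have hft : Algebra.FiniteType k (Polynomial A) :=
    Algebra.FiniteType.trans (S := A) inferInstance inferInstance
  have hft' : Algebra.FiniteType k (MvPolynomial (Fin 1) A) :=
    Algebra.FiniteType.trans (S := A) inferInstance inferInstance
  have ht := triple_away (R := k) (X : Polynomial A)
  have h1 := h.add _ _ (ft_aff True) ⟨ht.closed, ht.opened, ht.compl⟩ c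
  have h2 : δ (aff k (Polynomial A)) c = δ (aff k A) (c - 1) := by
    have e : MvPolynomial (Fin 1) A ≃ₐ[k] Polynomial A :=
      (MvPolynomial.uniqueAlgEquiv A (Fin 1)).restrictScalars k
    rw [← alg_iso h e, additive_poly h]
    rfl
  have hq : Algebra.FiniteType k (Polynomial A ⧸ Ideal.span {(X : Polynomial A)}) :=
    Algebra.FiniteType.of_surjective (Ideal.Quotient.mkₐ k _) (Ideal.Quotient.mkₐ_surjective k _)
  have h3 : δ (aff k (Polynomial A ⧸ Ideal.span {(X : Polynomial A)})) = δ (aff k A) := by
    have e1 : Ideal.span {(X : Polynomial A)} = Ideal.span {(X - C 0 : Polynomial A)} := by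
      rw [C_0, sub_zero]
    have e2 := (Ideal.quotientEquivAlgOfEq k e1).trans
      ((Polynomial.quotientSpanXSubCAlgEquiv (0 : A)).restrictScalars k)
    exact alg_iso h e2
  have hl : Algebra.FiniteType k (Localization.Away (X : Polynomial A)) :=
    Algebra.FiniteType.trans (S := Polynomial A) inferInstance inferInstance
  have h4 : δ (aff k (Localization.Away (X : Polynomial A))) = δ (aff k (LaurentPolynomial A)) := by
    have := LaurentPolynomial.isLocalization (R := A)
    let e : Localization.Away (X : Polynomial A) ≃ₐ[Polynomial A] LaurentPolynomial A :=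
      IsLocalization.algEquiv (Submonoid.powers (X : Polynomial A)) _ _
    let e' : Localization.Away (X : Polynomial A) ≃ₐ[k] LaurentPolynomial A :=
      AlgEquiv.ofRingEquiv (f := e.toRingEquiv) (by
        intro r
        have h8 : algebraMap k (Localization.Away (X : Polynomial A)) r =
          algebraMap (Polynomial A) _ (algebraMap k (Polynomial A) r) := rfl
        change e (algebraMap k _ r) = _
        rw [h8, e.commutes]
        rw [Polynomial.algebraMap_apply]
        rw [LaurentPolynomial.algebraMap_eq_toLaurent, Polynomial.toLaurent_C]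
        rfl)
    exact alg_iso h e'
  rw [h3, h4, h2] at h1
  rw [h1, add_sub_cancel_left]

/-- The zero set of the invariant has the closure properties. -/
theorem bnd_additive : Bnd True fun X : Sch k => ∀ c, δ X c = 0 where
  iso hX e h0 c := by
    rw [← h.iso hX e]
    exact h0 c
  total i j hX ht hZ hU c := by
    rw [h.add i j hX ⟨ht.closed, ht.opened, ht.compl⟩, hZ, hU, add_zero]
  opened i j hX ht hZ hX' c := by
    have h1 := h.add i j hX ⟨ht.closed, ht.opened, ht.compl⟩ c
    rw [hZ, hX', zero_add] at h1
    exact h1.symm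
  closed i j hX ht hX' hU c := by
    have h1 := h.add i j hX ⟨ht.closed, ht.opened, ht.compl⟩ c
    rw [hU, hX', add_zero] at h1
    exact h1.symm
  space n c := by rw [additive_poly h, h.point]
  jouanolou A _ _ _ m f U j hj hr h0 c := by
    have h1 := h.bundle A m f U ⟨j, hj, hr⟩ (c + (m - 1))
    rw [h0, add_sub_cancel_right] at h1
    exact h1.symm
  torus A _ _ _ h0 := by
    obtain ⟨b, hb⟩ := h.bounded (aff k A) (ft_aff True)
    have h1 : ∀ c, δ (aff k A) (c - 1) = δ (aff k A) c := by
      intro c
      have h2 := additive_torus h A c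
      rw [h0] at h2
      exact sub_eq_zero.mp h2.symm
    have h2 : ∀ n : ℕ, δ (aff k A) (b - 1 + n) = 0 := by
      intro n
      induction n with
      | zero => exact hb _ (by push_cast; omega)
      | succ n ih =>
        rw [← h1]
        have : b - 1 + ((n + 1 : ℕ) : ℤ) - 1 = b - 1 + n := by push_cast; ring
        rw [this]
        exact ih
    intro c
    by_cases hc : c < b
    · exact hb c hc
    · have h3 := h2 (c - (b - 1)).toNat
      have h4 : b - 1 + ((c - (b - 1)).toNat : ℤ) = c := by
        rw [Int.toNat_of_nonneg (by omega)]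
        ring
      rwa [h4] at h3
  bundle A _ _ _ m f U j hj hr h0 c := by
    rw [h.bundle A m f U ⟨j, hj, hr⟩]
    exact h0 _

end

end Pool.Agent.H39.Bei
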