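import Pool.Agent.H89.Dev.Defs
import Mathlib.Analysis.Meromorphic.TrailingCoefficient

/-!
# Central values and additive invariants with values in an abelian group: definitions

The definitions are those of the library module `W5h93.EX` of earlier work.
-/

set_option autoImplicit false

open CategoryTheory AlgebraicGeometry Pool.Agent.Y116.UV

universe w

namespace Pool.Agent.H39.Bei

section

variable {k : Type} [Field k]

/-- `i` is a closed immersion, `j` is an open immersion, and the image of `j` is the complement of the
image of `i`. -/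
def Decomp {Z X U : Sch k} (i : Z ⟶ X) (j : U ⟶ X) : Prop :=
  IsClosedImmersion i.left ∧ IsOpenImmersion j.left ∧ Set.range i.left = (Set.range j.left)ᶜ

/-- `U` is the open subscheme of `Spec A` where the functions `f` are not all zero. -/
def Compl {A : Type} [CommRing A] [Algebra k A] {m : ℕ} (f : Fin m → A) (U : Sch k) : Prop :=
  ∃ j : U ⟶ aff k A, IsOpenImmersion j.left ∧
    Set.range j.left = {x : PrimeSpectrum A | ∃ l, f l ∉ x.asIdeal}

/-- `δ X : ℤ → M` are the coefficients of an invariant of the separated schemes `X` of finite type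
over `k` with values in the Laurent polynomials `∑ δ X c L ^ c` with coefficients in the abelian group
`M`, which is additive for closed-open decompositions and compatible with affine bundles: the invariant
of the total space of the affine bundle `Spec A[w_1, …, w_m] / (∑ f_l w_l - 1) → U` with fibre
`𝔸^(m-1)`, where `U` is the complement of `f = 0` in `Spec A`, is `L ^ (m - 1)` times the invariant of
`U`. The invariant of the point is zero. -/
structure IsAdditive {M : Type*} [AddCommGroup M] (δ : Sch k → ℤ → M) : Prop where
  iso : ∀ {X Y : Sch k}, FT True X → Nonempty (X ≅ Y) → δ X = δ Y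
  add : ∀ {Z X U : Sch k} (i : Z ⟶ X) (j : U ⟶ X), FT True X → Decomp i j →
    ∀ c, δ X c = δ Z c + δ U c
  bundle : ∀ (A : Type) [CommRing A] [Algebra k A] [Algebra.FiniteType k A] (m : ℕ)
    (f : Fin m → A) (U : Sch k), Compl f U → ∀ c, δ (aff k (Jou f)) c = δ U (c - (m - 1))
  bounded : ∀ X : Sch k, FT True X → ∃ b : ℤ, ∀ c, c < b → δ X c = 0
  point : ∀ c, δ (aff k k) c = 0

/-- The vanishing of the invariant. -/
def Zero {M : Type*} [AddCommGroup M] (δ : Sch k → ℤ → M) (X : Sch k) : Prop :=
  ∀ c, δ X c = 0

end

/-- The objects in the conjecture of Beilinson, for schemes `X` over `ℚ` and integers `m`: the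
`ℚ`-vector space `V X m = CH^m(X)⁰ ⊗ ℚ`, the L-function `L X m` of `H^(2m-1)(X)`, the determinant
`period X m` of the period matrix `Π` and the determinant `height X m` of the height pairing on
`V^m × V^(dim X + 1 - m)`. -/
structure CentralData where
  /-- the homologically trivial cycles of codimension `m` with rational coefficients, modulo rational
  equivalence -/
  V : Sch ℚ → ℤ → ModuleCat.{w} ℚ
  /-- the L-function -/
  L : Sch ℚ → ℤ → ℂ → ℂ
  /-- the determinant of the period matrix -/
  period : Sch ℚ → ℤ → ℂˣ
  /-- the determinant of the height pairing -/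
  height : Sch ℚ → ℤ → ℂˣ

/-- **The parts (iii) and (iv) of the conjecture for `X`**: for all `m ≥ 1` the order of the L-function of
`H^(2m-1)(X)` at `s = m` is the dimension of `CH^m(X)⁰ ⊗ ℚ`, and its leading coefficient at `s = m` is
the product of the period determinant, the height determinant and a rational number `≠ 0`. -/
def CentralData.Beilinson (D : CentralData.{w}) (X : Sch ℚ) : Prop :=
  ∀ m : ℤ, 1 ≤ m →
    meromorphicOrderAt (D.L X m) m = ((Module.finrank ℚ (D.V X m) : ℤ) : WithTop ℤ) ∧
    ∃ q : ℚ, q ≠ 0 ∧
      meromorphicTrailingCoeffAt (D.L X m) m = q * (D.period X m * D.height X m : ℂˣ)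

/-- The group `ℂˣ / ℚˣ`. -/
abbrev Ratio : Type := ℂˣ ⧸ (Units.map (algebraMap ℚ ℂ : ℚ →* ℂ)).range

/-- The L-function of `H^(2m-1)(X)` is meromorphic at `s = m`, `CH^m(X)⁰ ⊗ ℚ` is finite-dimensional,
and `v ∈ ℤ × ℂˣ / ℚˣ` is the pair of the difference of the order at `s = m` and of the dimension of
`CH^m(X)⁰ ⊗ ℚ`, and of the quotient of the leading coefficient by the period determinant and the height
determinant. -/
structure CentralData.IsDefectAt (D : CentralData.{w}) (X : Sch ℚ) (m : ℤ)
    (v : ℤ × Additive Ratio) : Prop where
  meromorphic : MeromorphicAt (D.L X m) m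
  finite : Module.Finite ℚ (D.V X m)
  order : meromorphicOrderAt (D.L X m) m = ((v.1 + Module.finrank ℚ (D.V X m) : ℤ) : WithTop ℤ)
  leading : ∃ u : ℂˣ,
    meromorphicTrailingCoeffAt (D.L X m) m = (u * (D.period X m * D.height X m) : ℂˣ) ∧
    v.2 = Additive.ofMul (u : Ratio)

/-- `δ` is an additive invariant of the separated schemes of finite type over `ℚ`, with coefficients in
the group `ℤ × ℂˣ / ℚˣ`, such that for the varieties `X` of the class `Q` its coefficient at `m ≥ 1` is
the pair of the difference of the order of the L-function and of the dimension of `CH^m(X)⁰ ⊗ ℚ`, and of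
the quotient of the leading coefficient by the two determinants. -/
structure CentralData.IsDefect (D : CentralData.{w}) (Q : Sch ℚ → Prop)
    (δ : Sch ℚ → ℤ → ℤ × Additive Ratio) : Prop where
  additive : IsAdditive δ
  pos : ∀ X, Q X → ∀ m : ℤ, 1 ≤ m → D.IsDefectAt X m (δ X m)
  nonpos : ∀ X, Q X → ∀ m : ℤ, m ≤ 0 → δ X m = 0

end Pool.Agent.H39.Bei
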