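import Pool.Agent.H39.Bei.Bnd
import Pool.Agent.H89.Dev.Torus

/-!
# Central values, torus actions and finitely many varieties
-/

set_option autoImplicit false

open CategoryTheory AlgebraicGeometry Pool.Agent.Y116.UV Pool.Agent.H89.Dev Pool.Agent.Z125.UN
  Pool.Agent.W5h38.TV Pool.Agent.W5h68.SP

universe w

namespace Pool.Agent.H39.Bei

variable {D : CentralData.{w}} {Q : Sch ℚ → Prop} {δ : Sch ℚ → ℤ → ℤ × Additive Ratio}

lemma beilinson_iff (h : D.IsDefect Q δ) {X : Sch ℚ} (hX : Q X) : D.Beilinson X ↔ Zero δ X := by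
  constructor
  · intro hB m
    rcases le_or_gt 1 m with hm | hm
    · obtain ⟨h1, q, hq, h2⟩ := hB m hm
      obtain ⟨-, -, h3, u, h4, h5⟩ := h.pos X hX m hm
      rw [h3] at h1
      have h6 : (δ X m).1 + (Module.finrank ℚ (D.V X m) : ℤ) = Module.finrank ℚ (D.V X m) := by
        exact_mod_cast h1
      refine Prod.ext (by change (δ X m).1 = 0; omega) ?_
      change (δ X m).2 = 0
      rw [h5, ofMul_eq_zero, QuotientGroup.eq_one_iff]
      refine ⟨Units.mk0 q hq, ?_⟩
      ext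
      rw [h4, Units.val_mul] at h2
      have h7 : ((D.period X m * D.height X m : ℂˣ) : ℂ) ≠ 0 := Units.ne_zero _
      have h8 := mul_right_cancel₀ h7 h2
      change ((q : ℚ) : ℂ) = u
      exact h8.symm
    · exact h.nonpos X hX m (by omega)
  · intro hZ m hm
    obtain ⟨-, -, h3, u, h4, h5⟩ := h.pos X hX m hm
    have h0 := hZ m
    rw [h0] at h3 h5
    refine ⟨?_, ?_⟩
    · rw [h3]
      congr 1
      change (0 : ℤ) + _ = _
      rw [zero_add]
    · have h6 : Additive.ofMul (u : Ratio) = 0 := h5.symm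
      rw [ofMul_eq_zero, QuotientGroup.eq_one_iff] at h6
      obtain ⟨q, rfl⟩ := h6
      refine ⟨q, q.ne_zero, ?_⟩
      rw [h4, Units.val_mul]
      rfl

/-- The conjecture for finitely many varieties of the class `Q` of dimension at most `n`, which depend
only on `X`, implies the vanishing of the invariant of `X`, for all data. -/
def Fin (Q : Sch ℚ → Prop) (n : ℕ) (X : Sch ℚ) : Prop :=
  ∃ 𝒴 : List (Sch ℚ), (∀ Y ∈ 𝒴, Q Y ∧ topologicalKrullDim Y.left ≤ n) ∧
    ∀ (D : CentralData.{w}) (δ : Sch ℚ → ℤ → ℤ × Additive Ratio), D.IsDefect Q δ →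
      (∀ Y ∈ 𝒴, D.Beilinson Y) → Zero δ X

variable {n : ℕ}

lemma fin_one {X Y : Sch ℚ}
    (h : ∀ δ : Sch ℚ → ℤ → ℤ × Additive Ratio, IsAdditive δ → Zero δ X → Zero δ Y)
    (hX : Fin.{w} Q n X) : Fin.{w} Q n Y := by
  obtain ⟨L, h1, h2⟩ := hX
  exact ⟨L, h1, fun D δ hδ h3 => h δ hδ.additive (h2 D δ hδ h3)⟩

lemma fin_two {X Y Z : Sch ℚ}
    (h : ∀ δ : Sch ℚ → ℤ → ℤ × Additive Ratio, IsAdditive δ → Zero δ X → Zero δ Y → Zero δ Z)
    (hX : Fin.{w} Q n X) (hY : Fin.{w} Q n Y) : Fin.{w} Q n Z := by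
  obtain ⟨L, h1, h2⟩ := hX
  obtain ⟨M, h3, h4⟩ := hY
  refine ⟨L ++ M, fun Y hY => ?_, fun D δ hδ h5 => h δ hδ.additive
    (h2 D δ hδ fun Y hY => h5 Y (List.mem_append_left _ hY))
    (h4 D δ hδ fun Y hY => h5 Y (List.mem_append_right _ hY))⟩
  rcases List.mem_append.mp hY with h | h
  · exact h1 Y h
  · exact h3 Y h

lemma fin_zero {X : Sch ℚ}
    (h : ∀ δ : Sch ℚ → ℤ → ℤ × Additive Ratio, IsAdditive δ → Zero δ X) : Fin.{w} Q n X :=
  ⟨[], fun _ h => absurd h List.not_mem_nil, fun _ δ hδ _ => h δ hδ.additive⟩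

theorem bnd_fin : Bnd True (Fin.{w} Q n) where
  iso hX e := fin_one fun _ h => (bnd_additive h).iso hX e
  total i j hX ht := fin_two fun _ h => (bnd_additive h).total i j hX ht
  opened i j hX ht := fin_two fun _ h => (bnd_additive h).opened i j hX ht
  closed i j hX ht := fin_two fun _ h => (bnd_additive h).closed i j hX ht
  space m := fin_zero fun _ h => (bnd_additive h).space m
  jouanolou A _ _ _ m f U j hj hr := fin_one fun _ h => (bnd_additive h).jouanolou A m f U j hj hr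
  torus A _ _ _ := fin_one fun _ h => (bnd_additive h).torus A
  bundle A _ _ _ m f U j hj hr := fin_one fun _ h => (bnd_additive h).bundle A m f U j hj hr

lemma fin_class (hQ : IsClass Q) : ForClass Q (Fin.{w} Q n) n := fun X hX hn =>
  ⟨[X], fun Y hY => by rw [List.mem_singleton.mp hY]; exact ⟨hX, hn⟩,
    fun _ _ hδ h => (beilinson_iff hδ hX).mp (h X (List.mem_singleton_self X))⟩

/-- **Finitely many varieties.** -/
theorem fin_built (hQ : IsClass Q) (hM : ModelsIn Q n) (X : Sch ℚ) (h : Built n X) :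
    Fin.{w} Q n X :=
  built_of_class bnd_fin hQ hM (fin_class hQ) X h

/-- **The class and the torus schemes.** -/
theorem class_iff_all (hδ : D.IsDefect Q δ) (hQ : IsClass Q) (hM : ModelsIn Q n) :
    (ForClass Q D.Beilinson n ↔ ∀ X : Sch ℚ, Built n X → Zero δ X) ∧
    (ForClass Q D.Beilinson n ↔
      ∀ X : Sch ℚ, FT True X → topologicalKrullDim X.left ≤ n → Zero δ X) := by
  have hB := bnd_additive hδ.additive
  have h0 : ForClass Q D.Beilinson n ↔ ForClass Q (Zero δ) n :=
    forall_congr' fun X => forall_congr' fun hX => forall_congr' fun _ => beilinson_iff hδ hX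
  refine ⟨h0.trans (class_iff_built hB hQ hM), ⟨fun h => devissage hB hQ hM (h0.mp h), fun h => ?_⟩⟩
  exact h0.mpr fun X hX hn => h X (hQ.ft hX) hn

end Pool.Agent.H39.Bei
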